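import Pool.Agent.Lib.MP_defcf3_al.BR.BaseC

/-! D6 (CYCLO): cyclotomic characters modulo powers of 7. -/

namespace BR7.H81

universe u

instance fact7 : Fact (Nat.Prime 7) := ⟨by norm_num⟩

/-! ### The discrete logarithm to the base 8 -/

theorem isUnit8 (n : ℕ) : IsUnit (8 : ZMod (7 ^ (n + 1))) := by
  have h : ((8 : ℕ) : ZMod (7 ^ (n + 1))) = 8 := by norm_cast
  rw [← h, ZMod.isUnit_iff_coprime]
  apply Nat.Coprime.pow_right
  norm_num

/-- The unit 8. -/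
noncomputable def e8 (n : ℕ) : (ZMod (7 ^ (n + 1)))ˣ := (isUnit8 n).unit

theorem e8_val (n : ℕ) : ((e8 n : (ZMod (7 ^ (n + 1)))ˣ) : ZMod (7 ^ (n + 1))) = 8 :=
  IsUnit.unit_spec _

theorem orderOf_e8 (n : ℕ) : orderOf (e8 n) = 7 ^ n := by
  rw [← orderOf_injective _ Units.coeHom_injective (e8 n), Units.coeHom_apply, e8_val]
  have h := ZMod.orderOf_one_add_prime (p := 7) (by norm_num) (by norm_num) n
  have h8 : (1 + ((7 : ℕ) : ZMod (7 ^ (n + 1)))) = 8 := by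
    push_cast
    norm_num
  rw [← h8]
  exact h

theorem e8_pow_eq {n a b : ℕ} : e8 n ^ a = e8 n ^ b ↔ a ≡ b [MOD 7 ^ n] := by
  rw [pow_eq_pow_iff_modEq, orderOf_e8]

theorem exists_log (n : ℕ) (x : (ZMod (7 ^ (n + 1)))ˣ) (hx : x ^ (7 ^ n) = 1) :
    ∃ s : ZMod (7 ^ n), e8 n ^ s.val = x := by
  classical
  have hc : IsCyclic (ZMod (7 ^ (n + 1)))ˣ :=
    ZMod.isCyclic_units_of_prime_pow 7 (by norm_num) (by norm_num) (n + 1)
  have h1 := IsCyclic.card_pow_eq_one_le (α := (ZMod (7 ^ (n + 1)))ˣ) (n := 7 ^ n) (by positivity)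
  obtain ⟨S, hS⟩ : ∃ S : Finset (ZMod (7 ^ (n + 1)))ˣ, S = (Finset.range (7 ^ n)).image
      (fun a => e8 n ^ a) := ⟨_, rfl⟩
  have hcard : S.card = 7 ^ n := by
    rw [hS, Finset.card_image_of_injOn, Finset.card_range]
    intro a ha b hb hab
    have h2 := (e8_pow_eq (n := n)).mp hab
    rw [Nat.ModEq, Nat.mod_eq_of_lt (by simpa using ha), Nat.mod_eq_of_lt (by simpa using hb)] at h2
    exact h2
  have hsub : S ⊆ Finset.univ.filter (fun a : (ZMod (7 ^ (n + 1)))ˣ => a ^ (7 ^ n) = 1) := by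
    intro y hy
    rw [hS, Finset.mem_image] at hy
    obtain ⟨a, -, rfl⟩ := hy
    rw [Finset.mem_filter]
    refine ⟨Finset.mem_univ _, ?_⟩
    rw [← pow_mul, mul_comm, pow_mul]
    have h3 := pow_orderOf_eq_one (e8 n)
    rw [orderOf_e8] at h3
    rw [h3, one_pow]
  have heq := Finset.eq_of_subset_of_card_le hsub (by rw [hcard]; convert h1)
  have hxS : x ∈ S := by
    rw [heq, Finset.mem_filter]
    exact ⟨Finset.mem_univ _, hx⟩
  rw [hS, Finset.mem_image] at hxS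
  obtain ⟨a, ha, rfl⟩ := hxS
  refine ⟨(a : ZMod (7 ^ n)), ?_⟩
  rw [ZMod.val_natCast, Nat.mod_eq_of_lt (Finset.mem_range.mp ha)]

theorem pow6 (n : ℕ) (x : (ZMod (7 ^ (n + 1)))ˣ) : (x ^ 6) ^ (7 ^ n) = 1 := by
  have h := ZMod.pow_totient x
  rw [Nat.totient_prime_pow_succ (by norm_num)] at h
  rw [← pow_mul, mul_comm]
  exact h

/-- The logarithm of `x^6` to the base 8. -/
noncomputable def L (n : ℕ) (x : (ZMod (7 ^ (n + 1)))ˣ) : ZMod (7 ^ n) :=
  (exists_log n (x ^ 6) (pow6 n x)).choose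

theorem L_spec (n : ℕ) (x : (ZMod (7 ^ (n + 1)))ˣ) : e8 n ^ (L n x).val = x ^ 6 :=
  (exists_log n (x ^ 6) (pow6 n x)).choose_spec

theorem L_unique (n : ℕ) (x : (ZMod (7 ^ (n + 1)))ˣ) (s : ZMod (7 ^ n))
    (h : e8 n ^ s.val = x ^ 6) : L n x = s := by
  rw [← L_spec] at h
  have h1 := (e8_pow_eq (n := n)).mp h
  rw [Nat.ModEq, Nat.mod_eq_of_lt (ZMod.val_lt _), Nat.mod_eq_of_lt (ZMod.val_lt _)] at h1
  exact (ZMod.val_injective _ h1).symm

theorem L_mul (n : ℕ) (x y : (ZMod (7 ^ (n + 1)))ˣ) : L n (x * y) = L n x + L n y := by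
  refine L_unique n _ _ ?_
  rw [mul_pow, ← L_spec n x, ← L_spec n y, ← pow_add]
  refine (e8_pow_eq (n := n)).mpr ?_
  rw [ZMod.val_add]
  exact Nat.mod_modEq _ _

/-! ### The characters -/

variable {F Ω : Type u} [Field F] [Field Ω] [Algebra F Ω]

/-- The 7-adic cyclotomic character. -/
noncomputable def kap : (Ω ≃ₐ[F] Ω) →* ℤ_[7]ˣ :=
  (cyclotomicCharacter Ω 7).comp (MulSemiringAction.toRingAut (Ω ≃ₐ[F] Ω) Ω)

/-- The cyclotomic character modulo `7^(n+1)`. -/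
noncomputable def kapn (n : ℕ) : (Ω ≃ₐ[F] Ω) →* (ZMod (7 ^ (n + 1)))ˣ :=
  (Units.map (PadicInt.toZModPow (p := 7) (n + 1)).toMonoidHom).comp kap

theorem kapn_val (n : ℕ) (g : Ω ≃ₐ[F] Ω) :
    ((kapn n g : (ZMod (7 ^ (n + 1)))ˣ) : ZMod (7 ^ (n + 1))) =
      PadicInt.toZModPow (n + 1) ((kap g : ℤ_[7]ˣ) : ℤ_[7]) := rfl

theorem kapn_spec [∀ i, HasEnoughRootsOfUnity Ω (7 ^ i)] (n : ℕ) (g : Ω ≃ₐ[F] Ω) (t : Ωˣ)
    (ht : t ^ (7 ^ (n + 1)) = 1) : g • t = t ^ ((kapn n g : (ZMod (7 ^ (n + 1)))ˣ) :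
      ZMod (7 ^ (n + 1))).val := by
  have h := cyclotomicCharacter.spec (L := Ω) 7 (n := n + 1)
    (MulSemiringAction.toRingAut (Ω ≃ₐ[F] Ω) Ω g) (t : Ω) (by
      have := congrArg Units.val ht
      simpa using this)
  apply Units.ext
  rw [Units.val_pow_eq_pow_val]
  exact h

theorem kapn_castHom (n k : ℕ) (g : Ω ≃ₐ[F] Ω) :
    ZMod.castHom (pow_dvd_pow 7 (Nat.add_le_add_right (Nat.le_add_right n k) 1))
      (ZMod (7 ^ (n + 1))) ((kapn (n + k) g : (ZMod (7 ^ (n + k + 1)))ˣ) :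
      ZMod (7 ^ (n + k + 1))) = ((kapn n g : (ZMod (7 ^ (n + 1)))ˣ) : ZMod (7 ^ (n + 1))) := by
  rw [kapn_val, kapn_val]
  have h := PadicInt.zmod_cast_comp_toZModPow (p := 7) (n + 1) (n + k + 1) (by omega)
  exact congrFun (congrArg DFunLike.coe h) _

theorem isLocConst_of_root (t : Ωˣ) [Algebra.IsIntegral F Ω] {S : Type*}
    (f : (Ω ≃ₐ[F] Ω) → S) (h : ∀ g g' : Ω ≃ₐ[F] Ω, g • t = g' • t → f g = f g') :
    IsLocallyConstant f := by
  rw [IsLocallyConstant.iff_exists_open]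
  intro g
  have hopen : IsOpen (MulAction.stabilizer (Ω ≃ₐ[F] Ω) (t : Ω) : Set (Ω ≃ₐ[F] Ω)) :=
    stabilizer_isOpen_of_isIntegral (K := F) (t : Ω)
  refine ⟨(fun g' => g⁻¹ * g') ⁻¹' (MulAction.stabilizer (Ω ≃ₐ[F] Ω) (t : Ω) : Set (Ω ≃ₐ[F] Ω)),
    hopen.preimage (continuous_const.mul continuous_id), ?_, ?_⟩
  · simp
  · intro g' hg'
    have h1 : (g⁻¹ * g') • (t : Ω) = (t : Ω) := hg'
    apply h
    apply Units.ext
    have h2 : g' • (t : Ω) = g • (t : Ω) := by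
      have h3 := congrArg (fun x => g • x) h1
      simp only [← mul_smul, mul_inv_cancel_left] at h3
      exact h3
    exact h2

theorem cyclo : BR7.CycloStatement.{u} := by
  intro F Ω _ _ _ _ _ ζ hζ
  have h7 : ((7 : ℕ) : Ω) ≠ 0 := by
    have := IsPrimitiveRoot.neZero' (R := Ω) (n := 7) (ζ := (ζ : Ω)) (hζ.map_of_injective Units.coeHom_injective)
    exact this.out
  haveI : NeZero ((7 : ℕ) : Ω) := ⟨h7⟩
  haveI henough : ∀ i, HasEnoughRootsOfUnity Ω (7 ^ i) := fun i =>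
    IsSepClosed.hasEnoughRootsOfUnity_pow Ω 7 i
  refine ⟨fun n g => L n (kapn n g), ?_, ?_, ?_, ?_⟩
  · intro n g h
    change L n (kapn n (g * h)) = _
    rw [map_mul, L_mul]
  · intro n
    obtain ⟨t, ht⟩ := HasEnoughRootsOfUnity.exists_primitiveRoot Ω (7 ^ (n + 1))
    obtain ⟨t', ht'⟩ : ∃ t' : Ωˣ, (t' : Ω) = t := ⟨(ht.isUnit (by positivity)).unit, rfl⟩
    have ht1 : IsPrimitiveRoot t' (7 ^ (n + 1)) := by
      rw [← ht'] at ht
      exact IsPrimitiveRoot.coe_units_iff.mp ht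
    refine isLocConst_of_root t' _ fun g g' hgg => ?_
    rw [kapn_spec n g t' ht1.pow_eq_one, kapn_spec n g' t' ht1.pow_eq_one] at hgg
    have h2 := ht1.pow_inj (ZMod.val_lt _) (ZMod.val_lt _) hgg
    have h3 : kapn n g = kapn n g' := Units.ext (ZMod.val_injective _ h2)
    change L n (kapn n g) = L n (kapn n g')
    rw [h3]
  · intro n k g
    refine (L_unique n (kapn n g) _ ?_).symm
    have h1 := L_spec (n + k) (kapn (n + k) g)
    obtain ⟨a, ha⟩ : ∃ a, a = L (n + k) (kapn (n + k) g) := ⟨_, rfl⟩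
    rw [← ha] at h1
    change e8 n ^ (ZMod.castHom (pow_dvd_pow 7 (Nat.le_add_right n k)) (ZMod (7 ^ n))
      (L (n + k) (kapn (n + k) g))).val = _
    rw [← ha]
    have h2 : (ZMod.castHom (pow_dvd_pow 7 (Nat.le_add_right n k)) (ZMod (7 ^ n)) a).val =
        a.val % 7 ^ n := by
      rw [ZMod.castHom_apply, ZMod.cast_eq_val, ZMod.val_natCast]
    rw [h2]
    have h3 : e8 n ^ (a.val % 7 ^ n) = e8 n ^ a.val := (e8_pow_eq (n := n)).mpr (Nat.mod_modEq _ _)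
    rw [h3]
    apply Units.ext
    have h4 := congrArg Units.val h1
    have h5 := congrArg (ZMod.castHom (pow_dvd_pow 7
      (Nat.add_le_add_right (Nat.le_add_right n k) 1)) (ZMod (7 ^ (n + 1)))) h4
    rw [Units.val_pow_eq_pow_val, Units.val_pow_eq_pow_val, map_pow, map_pow, kapn_castHom,
      e8_val] at h5
    rw [Units.val_pow_eq_pow_val, Units.val_pow_eq_pow_val, e8_val, ← h5]
    congr 1
    have h6 : ZMod.castHom (pow_dvd_pow 7 (Nat.add_le_add_right (Nat.le_add_right n k) 1))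
      (ZMod (7 ^ (n + 1))) (8 : ZMod (7 ^ (n + k + 1))) = 8 := map_ofNat _ 8
    exact h6.symm
  · intro n g hg h0 x hx
    have h1 := L_spec n (kapn n g)
    change L n (kapn n g) = 0 at h0
    rw [h0, ZMod.val_zero, pow_zero] at h1
    -- `κ ≡ 1` modulo 7
    have h2 : ((kapn 0 g : (ZMod (7 ^ (0 + 1)))ˣ) : ZMod (7 ^ (0 + 1))) = 1 := by
      have h3 := kapn_spec 0 g ζ (by simpa using hζ.pow_eq_one)
      rw [hg] at h3
      have h4 : ζ ^ 1 = ζ ^ ((kapn 0 g : (ZMod (7 ^ (0 + 1)))ˣ) : ZMod (7 ^ (0 + 1))).val := by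
        rw [pow_one]; exact h3
      have h5 := hζ.pow_inj (by norm_num) (by
        have := ZMod.val_lt ((kapn 0 g : (ZMod (7 ^ (0 + 1)))ˣ) : ZMod (7 ^ (0 + 1)))
        simpa using this) h4
      apply ZMod.val_injective
      rw [← h5]
      rfl
    have h3 : ((7 : ℕ) : ℤ_[7]) ∣ ((kap g : ℤ_[7]ˣ) : ℤ_[7]) - 1 := by
      rw [kapn_val] at h2
      have h4 : PadicInt.toZModPow (p := 7) (0 + 1) (((kap g : ℤ_[7]ˣ) : ℤ_[7]) - 1) = 0 := by
        rw [map_sub, h2, map_one, sub_self]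
      have h5 : (((kap g : ℤ_[7]ˣ) : ℤ_[7]) - 1) ∈ RingHom.ker (PadicInt.toZModPow (p := 7) (0 + 1)) :=
        h4
      rw [PadicInt.ker_toZModPow, Ideal.mem_span_singleton] at h5
      simpa using h5
    have h4 := dvd_sub_pow_of_dvd_sub h3 n
    have h5 : kapn n g ^ (7 ^ n) = 1 := by
      apply Units.ext
      rw [Units.val_pow_eq_pow_val, Units.val_one, kapn_val]
      rw [one_pow] at h4
      have h6 : (((kap g : ℤ_[7]ˣ) : ℤ_[7]) ^ 7 ^ n - 1) ∈
          RingHom.ker (PadicInt.toZModPow (p := 7) (n + 1)) := by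
        rw [PadicInt.ker_toZModPow, Ideal.mem_span_singleton]
        exact h4
      have h7' : PadicInt.toZModPow (p := 7) (n + 1) (((kap g : ℤ_[7]ˣ) : ℤ_[7]) ^ 7 ^ n - 1) = 0 := h6
      rw [map_sub, map_pow, map_one, sub_eq_zero] at h7'
      exact h7'
    have h6 : kapn n g = 1 := by
      have h7' : orderOf (kapn n g) ∣ 6 := orderOf_dvd_of_pow_eq_one h1.symm
      have h8 : orderOf (kapn n g) ∣ 7 ^ n := orderOf_dvd_of_pow_eq_one h5
      have h9 : Nat.Coprime 6 (7 ^ n) := by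
        apply Nat.Coprime.pow_right
        norm_num
      rw [← orderOf_eq_one_iff]
      exact Nat.eq_one_of_dvd_coprimes h9 h7' h8
    rw [kapn_spec n g x hx, h6, Units.val_one]
    have h10 : (1 : ZMod (7 ^ (n + 1))).val = 1 := by
      haveI : Fact (1 < 7 ^ (n + 1)) := ⟨Nat.one_lt_pow (by omega) (by norm_num)⟩
      exact ZMod.val_one _
    rw [h10, pow_one]

end BR7.H81
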