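import Pool.Agent.Lib.MP_defcf3_al.BR.Base

/-! H4 (RIC): the Riccati lemma (Lemma 4 of the paper). -/

namespace BR7.H81

universe u

open Matrix

variable {Ω : Type u} [Field Ω]

/-- The matrices of the Riccati equation. -/
def M (φ : Ω) (μ : ZMod 7 → Ω) (j : ZMod 7) : Matrix (Fin 2) (Fin 2) Ω := !![φ, -μ j; 1, 0]

/-- The monodromy. -/
def P (φ : Ω) (μ : ZMod 7 → Ω) : Matrix (Fin 2) (Fin 2) Ω :=
  M φ μ 6 * M φ μ 5 * M φ μ 4 * M φ μ 3 * M φ μ 2 * M φ μ 1 * M φ μ 0

theorem det_M (φ : Ω) (μ : ZMod 7 → Ω) (j : ZMod 7) : (M φ μ j).det = μ j := by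
  simp [M, Matrix.det_fin_two]

theorem det_P (φ : Ω) (μ : ZMod 7 → Ω) : (P φ μ).det = ∏ j, μ j := by
  simp only [P, Matrix.det_mul, det_M]
  have h : (∏ j : ZMod 7, μ j) = ∏ j : Fin 7, μ j := rfl
  rw [h, Fin.prod_univ_seven]
  change μ 6 * μ 5 * μ 4 * μ 3 * μ 2 * μ 1 * μ 0 = μ 0 * μ 1 * μ 2 * μ 3 * μ 4 * μ 5 * μ 6
  ring

/-- Two eigenvectors with the same simple eigenvalue are proportional. -/
theorem prop_of_eig {Q : Matrix (Fin 2) (Fin 2) Ω} {C : Ω} (hT : Q.trace ≠ 2 * C)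
    {u v : Fin 2 → Ω} (hu : Q *ᵥ u = C • u) (hv : Q *ᵥ v = C • v) : u 0 * v 1 = u 1 * v 0 := by
  by_contra hne
  have hw : u 0 * v 1 - u 1 * v 0 ≠ 0 := sub_ne_zero.mpr hne
  have u0 := congrFun hu 0
  have u1 := congrFun hu 1
  have v0 := congrFun hv 0
  have v1 := congrFun hv 1
  simp only [Matrix.mulVec, dotProduct, Fin.sum_univ_two, Pi.smul_apply, smul_eq_mul] at u0 u1 v0 v1
  have ha : (Q 0 0 - C) * (u 0 * v 1 - u 1 * v 0) = 0 := by
    linear_combination v 1 * u0 - u 1 * v0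
  have hd : (Q 1 1 - C) * (u 0 * v 1 - u 1 * v 0) = 0 := by
    linear_combination u 0 * v1 - v 0 * u1
  have ha' : Q 0 0 = C := by
    rcases mul_eq_zero.mp ha with h | h
    · exact sub_eq_zero.mp h
    · exact absurd h hw
  have hd' : Q 1 1 = C := by
    rcases mul_eq_zero.mp hd with h | h
    · exact sub_eq_zero.mp h
    · exact absurd h hw
  apply hT
  rw [Matrix.trace_fin_two, ha', hd']
  ring

/-- Existence of an eigenvector with entries in a subfield. -/
theorem exists_eig {Q : Matrix (Fin 2) (Fin 2) Ω} {C : Ω} (hT : Q.trace ≠ 2 * C)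
    (hQ : Q.trace * C = C ^ 2 + Q.det) (K : Subfield Ω) (hK : ∀ i j, Q i j ∈ K) (hC : C ∈ K) :
    ∃ v : Fin 2 → Ω, Q *ᵥ v = C • v ∧ v ≠ 0 ∧ ∀ i, v i ∈ K := by
  rw [Matrix.trace_fin_two] at hT hQ
  rw [Matrix.det_fin_two] at hQ
  by_cases h : Q 1 0 = 0 ∧ Q 1 1 = C
  · refine ⟨![Q 0 1, C - Q 0 0], ?_, ?_, ?_⟩
    · funext i
      fin_cases i
      · simp [Matrix.mulVec, dotProduct, Fin.sum_univ_two]
        ring
      · simp [Matrix.mulVec, dotProduct, Fin.sum_univ_two]
        linear_combination hQ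
    · intro h0
      have h1 := congrFun h0 1
      simp only [Matrix.cons_val_one, Matrix.cons_val_zero, Pi.zero_apply] at h1
      apply hT
      rw [h.2]
      linear_combination -h1
    · intro i
      fin_cases i
      · simpa using hK 0 1
      · simpa using K.sub_mem hC (hK 0 0)
  · refine ⟨![C - Q 1 1, Q 1 0], ?_, ?_, ?_⟩
    · funext i
      fin_cases i
      · simp [Matrix.mulVec, dotProduct, Fin.sum_univ_two]
        linear_combination hQ
      · simp [Matrix.mulVec, dotProduct, Fin.sum_univ_two]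
        ring
    · intro h0
      apply h
      have h1 := congrFun h0 1
      have h2 := congrFun h0 0
      simp only [Matrix.cons_val_one, Matrix.cons_val_zero, Pi.zero_apply] at h1 h2
      exact ⟨h1, (sub_eq_zero.mp h2).symm⟩
    · intro i
      fin_cases i
      · simpa using K.sub_mem hC (hK 1 1)
      · simpa using hK 1 0

theorem mul_mem_K {K : Subfield Ω} {A B : Matrix (Fin 2) (Fin 2) Ω} (hA : ∀ i j, A i j ∈ K)
    (hB : ∀ i j, B i j ∈ K) : ∀ i j, (A * B) i j ∈ K := by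
  intro i j
  rw [Matrix.mul_apply]
  exact K.sum_mem fun l _ => K.mul_mem (hA i l) (hB l j)

theorem ric (htr : BR7.TraceStatement.{u}) : BR7.RiccatiStatement.{u} := by
  intro Ω _ σ μ φ C hμ hφ hC hC0 hμ0 h1 h2 h3 hPC
  obtain ⟨K, hK⟩ : ∃ K : Subfield Ω, K = Subfield.closure ({φ, C} ∪ Set.range μ) := ⟨_, rfl⟩
  rw [← hK]
  have hKφ : φ ∈ K := by rw [hK]; exact Subfield.subset_closure (Or.inl (Or.inl rfl))
  have hKC : C ∈ K := by rw [hK]; exact Subfield.subset_closure (Or.inl (Or.inr rfl))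
  have hKμ : ∀ j, μ j ∈ K := by
    intro j; rw [hK]; exact Subfield.subset_closure (Or.inr ⟨j, rfl⟩)
  have htr' : (P φ μ).trace = φ ^ 7 := htr Ω φ μ h1 h2 h3
  have hσC : ∀ i : ℕ, (σ ^ i) C = C := by
    intro i
    induction i with
    | zero => rfl
    | succ i ih => rw [pow_succ', RingAut.mul_apply, ih, hC]
  have hσφ : ∀ i : ℕ, (σ ^ i) φ = φ := by
    intro i
    induction i with
    | zero => rfl
    | succ i ih => rw [pow_succ', RingAut.mul_apply, ih, hφ]
  have hσμ : ∀ (i : ℕ) (j : ZMod 7), (σ ^ i) (μ j) = μ (j + i) := by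
    intro i
    induction i with
    | zero => intro j; simp
    | succ i ih =>
      intro j
      rw [pow_succ', RingAut.mul_apply, ih, hμ]
      push_cast
      rw [add_assoc]
  have hprod : (∏ j, μ j) = ∏ i ∈ Finset.range 7, (σ ^ i) (μ 0) := by
    have h : (∏ j : ZMod 7, μ j) = ∏ j : Fin 7, μ j := rfl
    rw [h, Fin.prod_univ_seven]
    simp only [hσμ, Finset.prod_range_succ, Finset.prod_range_zero, one_mul, zero_add]
    rfl
  by_cases hcase : φ ^ 7 = 2 * C
  · -- the case `C^2 = ∏ μ`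
    have hsq : (∏ j, μ j) = C ^ 2 := by
      have : φ ^ 7 * C = 2 * C ^ 2 := by rw [hcase]; ring
      linear_combination this - hPC
    refine ⟨μ 0 ^ 4 / C, K.div_mem (K.pow_mem (hKμ 0) 4) hKC,
      div_ne_zero (pow_ne_zero _ (hμ0 0)) hC0, ?_⟩
    simp only [map_div₀, map_pow, hσC]
    rw [Finset.prod_div_distrib, Finset.prod_pow, ← hprod, hsq]
    simp only [Finset.prod_const, Finset.card_range]
    field_simp
  · -- the eigenvector
    have hKM : ∀ j, ∀ i l, (M φ μ j) i l ∈ K := by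
      intro j i l
      fin_cases i <;> fin_cases l
      · simpa [M] using hKφ
      · simpa [M] using hKμ j
      · simp [M]
      · simp [M]
    have hKP : ∀ i l, (P φ μ) i l ∈ K :=
      mul_mem_K (mul_mem_K (mul_mem_K (mul_mem_K (mul_mem_K (mul_mem_K (hKM 6) (hKM 5)) (hKM 4))
        (hKM 3)) (hKM 2)) (hKM 1)) (hKM 0)
    have hT : (P φ μ).trace ≠ 2 * C := by rw [htr']; exact hcase
    obtain ⟨v, hv, hv0, hvK⟩ := exists_eig hT (by rw [htr', det_P]; exact hPC) K hKP hKC
    let S : Matrix (Fin 2) (Fin 2) Ω →+* Matrix (Fin 2) (Fin 2) Ω := (σ : Ω →+* Ω).mapMatrix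
    have hSM : ∀ j, S (M φ μ j) = M φ μ (j + 1) := by
      intro j
      ext i l
      fin_cases i <;> fin_cases l <;> simp [S, M, hφ, hμ]
    have hSP : S (P φ μ) * M φ μ 0 = M φ μ 0 * P φ μ := by
      simp only [P, map_mul, hSM]
      have e6 : (6 : ZMod 7) + 1 = 0 := rfl
      have e5 : (5 : ZMod 7) + 1 = 6 := rfl
      have e4 : (4 : ZMod 7) + 1 = 5 := rfl
      have e3 : (3 : ZMod 7) + 1 = 4 := rfl
      have e2 : (2 : ZMod 7) + 1 = 3 := rfl
      have e1 : (1 : ZMod 7) + 1 = 2 := rfl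
      have e0 : (0 : ZMod 7) + 1 = 1 := rfl
      rw [e6, e5, e4, e3, e2, e1, e0]
      simp only [mul_assoc]
    have hStr : (S (P φ μ)).trace ≠ 2 * C := by
      intro h
      apply hT
      have h4 : (S (P φ μ)).trace = σ (P φ μ).trace := by
        rw [Matrix.trace_fin_two, Matrix.trace_fin_two, map_add]
        rfl
      rw [h4, htr', map_pow, hφ] at h
      rw [htr', h]
    -- the two eigenvectors of `S P`
    have hw : S (P φ μ) *ᵥ (fun i => σ (v i)) = C • (fun i => σ (v i)) := by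
      funext i
      have h5 := congrArg σ (congrFun hv i)
      simp only [Matrix.mulVec, dotProduct, Fin.sum_univ_two, Pi.smul_apply, smul_eq_mul,
        map_add, map_mul, hC] at h5 ⊢
      exact h5
    have hu : S (P φ μ) *ᵥ (M φ μ 0 *ᵥ v) = C • (M φ μ 0 *ᵥ v) := by
      rw [Matrix.mulVec_mulVec, hSP, ← Matrix.mulVec_mulVec, hv, Matrix.mulVec_smul]
    have hrel := prop_of_eig hStr hu hw
    have hu0 : (M φ μ 0 *ᵥ v) 0 = φ * v 0 - μ 0 * v 1 := by
      simp [M, Matrix.mulVec, dotProduct, Fin.sum_univ_two]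
      ring
    have hu1 : (M φ μ 0 *ᵥ v) 1 = v 0 := by
      simp [M, Matrix.mulVec, dotProduct, Fin.sum_univ_two]
    rw [hu0, hu1] at hrel
    have hv1 : v 1 ≠ 0 := by
      intro h
      rw [h, map_zero, mul_zero] at hrel
      have h0 : v 0 = 0 := by
        rcases mul_eq_zero.mp hrel.symm with h' | h'
        · exact h'
        · exact (map_eq_zero_iff σ σ.injective).mp h'
      apply hv0
      funext i
      fin_cases i
      · exact h0
      · exact h
    have hσv1 : σ (v 1) ≠ 0 := fun h => hv1 ((map_eq_zero_iff σ σ.injective).mp h)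
    have hv00 : v 0 ≠ 0 := by
      intro h
      rw [h, mul_zero, zero_sub, zero_mul] at hrel
      rcases mul_eq_zero.mp hrel with h' | h'
      · rw [neg_eq_zero] at h'
        rcases mul_eq_zero.mp h' with h'' | h''
        · exact hμ0 0 h''
        · exact hv1 h''
      · exact hσv1 h'
    obtain ⟨z, hz⟩ : ∃ z, z = v 0 / v 1 := ⟨_, rfl⟩
    have hz0 : z ≠ 0 := by rw [hz]; exact div_ne_zero hv00 hv1
    have hzrel : φ * z - μ 0 = z * σ z := by
      rw [hz, map_div₀]
      field_simp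
      linear_combination hrel
    have hzi : ∀ i : ℕ, φ * (σ ^ i) z - μ i = (σ ^ i) z * (σ ^ (i + 1)) z := by
      intro i
      have h6 := congrArg (σ ^ i) hzrel
      simp only [map_sub, map_mul, hσφ, hσμ, zero_add] at h6
      rw [h6, pow_succ, RingAut.mul_apply]
    have hMz : ∀ i : ℕ, M φ μ i *ᵥ ![(σ ^ i) z, 1] = (σ ^ i) z • ![(σ ^ (i + 1)) z, 1] := by
      intro i
      have h7 := hzi i
      obtain ⟨x, hx⟩ : ∃ x, x = (σ ^ i) z := ⟨_, rfl⟩
      obtain ⟨y, hy⟩ : ∃ y, y = (σ ^ (i + 1)) z := ⟨_, rfl⟩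
      rw [← hx, ← hy] at h7 ⊢
      funext l
      fin_cases l
      · simp [M, Matrix.mulVec, dotProduct, Fin.sum_univ_two]
        linear_combination h7
      · simp [M, Matrix.mulVec, dotProduct, Fin.sum_univ_two]
    refine ⟨z, by rw [hz]; exact K.div_mem (hvK 0) (hvK 1), hz0, ?_⟩
    have hPz : P φ μ *ᵥ ![z, 1] = C • ![z, 1] := by
      have h8 : v = v 1 • ![z, 1] := by
        funext i
        fin_cases i
        · simp [hz]
          field_simp
        · simp
      rw [h8, Matrix.mulVec_smul, smul_comm] at hv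
      funext i
      have h9 := congrFun hv i
      simp only [Pi.smul_apply, smul_eq_mul] at h9 ⊢
      exact mul_left_cancel₀ hv1 h9
    have hPz' : P φ μ *ᵥ ![z, 1] = (∏ i ∈ Finset.range 7, (σ ^ i) z) • ![(σ ^ 7) z, 1] := by
      have g0 := hMz 0
      have g1 := hMz 1
      have g2 := hMz 2
      have g3 := hMz 3
      have g4 := hMz 4
      have g5 := hMz 5
      have g6 := hMz 6
      simp only [Nat.cast_zero, Nat.cast_one, Nat.cast_ofNat, zero_add, pow_zero, RingAut.one_apply]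
        at g0 g1 g2 g3 g4 g5 g6
      norm_num only at g1 g2 g3 g4 g5 g6
      have h10 : P φ μ *ᵥ ![z, 1] = M φ μ 6 *ᵥ (M φ μ 5 *ᵥ (M φ μ 4 *ᵥ (M φ μ 3 *ᵥ (M φ μ 2 *ᵥ
          (M φ μ 1 *ᵥ (M φ μ 0 *ᵥ ![z, 1])))))) := by
        simp only [P, Matrix.mulVec_mulVec, mul_assoc]
      rw [h10]
      simp only [g0, Matrix.mulVec_smul, g1, g2, g3, g4, g5, g6, smul_smul,
        Finset.prod_range_succ, Finset.prod_range_zero, one_mul, pow_zero, RingAut.one_apply]
    rw [hPz] at hPz'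
    have h11 := congrFun hPz' 1
    simpa using h11

end BR7.H81
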