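import Pool.Agent.Lib.MP_defcf3_al.BR.BaseC

/-! E4 (SKUM): property (K) of symbols. -/

namespace BR7.H81

universe u

section Gen

variable {G A : Type u} [Group G] [TopologicalSpace G] [CommGroup A] [MulDistribMulAction G A]

/-- Cohomologous cocycles have the same class. -/
theorem cls_eq {f g : G → G → A} (hf : f ∈ BR7.Z2 G A) (hg : g ∈ BR7.Z2 G A)
    (h : f * g⁻¹ ∈ BR7.B2 G A) : BR7.cls G A f = BR7.cls G A g := by
  unfold BR7.cls
  rw [dif_pos hf, dif_pos hg, QuotientGroup.eq, Subgroup.mem_subgroupOf]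
  have h1 := (BR7.B2 G A).inv_mem h
  have h2 : ((⟨f, hf⟩⁻¹ * ⟨g, hg⟩ : BR7.Z2 G A) : G → G → A) = (f * g⁻¹)⁻¹ := by
    rw [mul_inv, inv_inv]
    rfl
  rw [h2]
  exact h1

theorem q_one {Q : Type*} [CommGroup Q] (a : Q) (h : a = a * a) : a = 1 := left_eq_mul.mp h

theorem q_cancel {Q : Type*} [CommGroup Q] (a b c : Q) (h1 : a * b = 1) (h2 : a * c = 1) :
    b = c := mul_left_cancel (h1.trans h2.symm)

theorem q_self {Q : Type*} [CommGroup Q] (s1 x y s2 : Q) (h1 : s1 = 1) (h2 : s2 = 1)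
    (h : s1 * x * (y * s2) = 1) : x * y = 1 := by
  rw [h1, h2, one_mul, mul_one] at h
  exact h

end Gen

section Act

variable {U : Type u} [Group U]

/-- The translation action of a group on residues by an additive character. -/
abbrev trans (χ : U → ZMod 7) (hχ : ∀ g h, χ (g * h) = χ g + χ h) : MulAction U (ULift.{u} (ZMod 7)) where
  smul g y := ⟨y.down + χ g⟩
  one_smul := by
    rintro ⟨y⟩
    have h1 : χ 1 = 0 := by
      have := hχ 1 1
      rw [mul_one] at this
      exact left_eq_add.mp this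
    change ULift.up (y + χ 1) = ULift.up y
    rw [h1, add_zero]
  mul_smul := by
    rintro g h ⟨y⟩
    change ULift.up (y + χ (g * h)) = ULift.up (y + χ h + χ g)
    rw [hχ, add_assoc, add_comm (χ h)]

end Act

theorem skum (hND : BR7.NormDirStatement.{u}) (hKer : BR7.KerResStatement.{u})
    (hDisc : BR7.DiscStatement.{u}) (hH90 : BR7.H90Statement.{u}) (hKum : BR7.KumStatement.{u})
    (hAdd : BR7.SymAddStatement.{u}) (hStein : BR7.SymSteinStatement.{u}) :
    BR7.SymKumStatement.{u} := by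
  intro F Ω _ _ _ _ _ ζ hζ C b f hC hb hf hN
  obtain ⟨hroot, hkum, hkadd, hkloc, -, -⟩ := hKum F Ω ζ hζ
  obtain ⟨hZ, hadd1, hadd2, -⟩ := hAdd F Ω ζ hζ
  obtain ⟨hself, -⟩ := hStein F Ω ζ hζ
  have hD : BR7.Disc (Ω ≃ₐ[F] Ω) Ωˣ := hDisc F Ω
  have hDH : BR7.Disc (BR7.HZ F ζ) Ωˣ := fun a => (hD a).preimage continuous_subtype_val
  have hHopen : IsOpen ((BR7.HZ F ζ : Subgroup (Ω ≃ₐ[F] Ω)) : Set (Ω ≃ₐ[F] Ω)) := hD ζ
  have hmemH : ∀ g : Ω ≃ₐ[F] Ω, g ∈ BR7.HZ F ζ ↔ g • ζ = ζ := fun g => Iff.rfl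
  -- the kernel of the Kummer character of `f`
  let U : Subgroup (BR7.HZ F ζ) :=
    { carrier := {g | BR7.kum F ζ f g = 0}
      mul_mem' := by
        intro g h hg hh
        change BR7.kum F ζ f (g * h) = 0
        rw [hkadd f hf, show BR7.kum F ζ f g = 0 from hg, show BR7.kum F ζ f h = 0 from hh, add_zero]
      one_mem' := by
        change BR7.kum F ζ f 1 = 0
        have := hkadd f hf 1 1
        rw [mul_one] at this
        exact left_eq_add.mp this
      inv_mem' := by
        intro g hg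
        change BR7.kum F ζ f g⁻¹ = 0
        have h1 : BR7.kum F ζ f 1 = 0 := by
          have := hkadd f hf 1 1
          rw [mul_one] at this
          exact left_eq_add.mp this
        have h2 := hkadd f hf g g⁻¹
        rw [mul_inv_cancel, h1, show BR7.kum F ζ f g = 0 from hg, zero_add] at h2
        exact h2.symm }
  have hU : ∀ g : BR7.HZ F ζ, g ∈ U ↔ BR7.kum F ζ f g = 0 := fun g => Iff.rfl
  have hUopen : IsOpen (U : Set (BR7.HZ F ζ)) := (hkloc f hf).isOpen_fiber 0
  have hDU : BR7.Disc U Ωˣ := fun a => (hDH a).preimage continuous_subtype_val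
  have hH1 : BR7.H1Triv U Ωˣ := hH90 F Ω (BR7.HZ F ζ) hHopen U hUopen
  -- the restriction of `cup 7 C (kum b)` to `U`
  have hres : (fun g h : U => BR7.cup 7 C (BR7.kum F ζ b) (g : BR7.HZ F ζ) (h : BR7.HZ F ζ)) ∈
      BR7.B2 U Ωˣ := by
    by_cases hz : ∀ g : U, BR7.kum F ζ b (g : BR7.HZ F ζ) = 0
    · have h1 : (fun g h : U => BR7.cup 7 C (BR7.kum F ζ b) (g : BR7.HZ F ζ) (h : BR7.HZ F ζ)) =
          1 := by
        funext g h
        simp only [BR7.cup, hz, Pi.one_apply]
        simp [BR7.carry]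
      rw [h1]
      exact (BR7.B2 U Ωˣ).one_mem
    · push Not at hz
      obtain ⟨g0, hg0⟩ := hz
      -- a power of `g0` has value 1
      have hpow : ∀ (g : BR7.HZ F ζ) (k : ℕ), BR7.kum F ζ b (g ^ k) = k * BR7.kum F ζ b g := by
        intro g k
        induction k with
        | zero =>
          have := hkadd b hb 1 1
          rw [mul_one] at this
          rw [pow_zero, left_eq_add.mp this]
          simp
        | succ k ih =>
          rw [pow_succ, hkadd b hb, ih]
          push_cast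
          ring
      haveI : Fact (Nat.Prime 7) := ⟨by norm_num⟩
      obtain ⟨σ, hσ⟩ : ∃ σ : U, BR7.kum F ζ b (σ : BR7.HZ F ζ) = 1 := by
        refine ⟨g0 ^ ((BR7.kum F ζ b (g0 : BR7.HZ F ζ))⁻¹).val, ?_⟩
        rw [Subgroup.coe_pow, hpow, ZMod.natCast_zmod_val, inv_mul_cancel₀ hg0]
      have hφ : BR7.root7 f ^ 7 = f := hroot f
      have hθ : BR7.root7 b ^ 7 = b := hroot b
      have hfixφ : ∀ g : BR7.HZ F ζ, g ∈ U ↔ g • BR7.root7 f = BR7.root7 f := by
        intro g
        rw [hkum f (BR7.root7 f) hf hφ g, hU]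
        constructor
        · intro h
          rw [h, ZMod.val_zero, pow_zero, one_mul]
        · intro h
          have h1 : ζ ^ (BR7.kum F ζ f g).val = ζ ^ 0 := by
            rw [pow_zero]
            exact mul_eq_right.mp h
          have h2 := hζ.pow_inj (ZMod.val_lt _) (by norm_num) h1
          exact (ZMod.val_eq_zero _).mp h2
      have hfixθ : ∀ g : BR7.HZ F ζ, BR7.kum F ζ b g = 0 ↔ g • BR7.root7 b = BR7.root7 b := by
        intro g
        rw [hkum b (BR7.root7 b) hb hθ g]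
        constructor
        · intro h
          rw [h, ZMod.val_zero, pow_zero, one_mul]
        · intro h
          have h1 : ζ ^ (BR7.kum F ζ b g).val = ζ ^ 0 := by
            rw [pow_zero]
            exact mul_eq_right.mp h
          have h2 := hζ.pow_inj (ZMod.val_lt _) (by norm_num) h1
          exact (ZMod.val_eq_zero _).mp h2
      have hσθ : ((σ : BR7.HZ F ζ) : Ω ≃ₐ[F] Ω) • BR7.root7 b = ζ * BR7.root7 b := by
        have h1 := hkum b (BR7.root7 b) hb hθ (σ : BR7.HZ F ζ)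
        rw [hσ] at h1
        have h2 : (1 : ZMod 7).val = 1 := rfl
        rw [h2, pow_one] at h1
        exact h1
      have hσφ : ((σ : BR7.HZ F ζ) : Ω ≃ₐ[F] Ω) • BR7.root7 f = BR7.root7 f :=
        (hfixφ σ).mp σ.2
      obtain ⟨z, hzfix, hzC⟩ := hN (BR7.root7 f) (BR7.root7 b) hφ hθ
        ((σ : BR7.HZ F ζ) : Ω ≃ₐ[F] Ω) ((hmemH _).mp (σ : BR7.HZ F ζ).2) hσφ hσθ
      -- elements of `U` with value 0 fix `z`
      have hfixz : ∀ g : U, BR7.kum F ζ b (g : BR7.HZ F ζ) = 0 → g • z = z := by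
        intro g hg
        exact hzfix ((g : BR7.HZ F ζ) : Ω ≃ₐ[F] Ω) ((hmemH _).mp (g : BR7.HZ F ζ).2)
          ((hfixφ g).mp g.2) ((hfixθ g).mp hg)
      have hsame : ∀ g h : U, BR7.kum F ζ b (g : BR7.HZ F ζ) = BR7.kum F ζ b (h : BR7.HZ F ζ) →
          g • z = h • z := by
        intro g h hgh
        have h1 : BR7.kum F ζ b ((h⁻¹ * g : U) : BR7.HZ F ζ) = 0 := by
          have h2 := hkadd b hb (h : BR7.HZ F ζ) ((h⁻¹ * g : U) : BR7.HZ F ζ)
          have h3 : (h : BR7.HZ F ζ) * ((h⁻¹ * g : U) : BR7.HZ F ζ) = (g : BR7.HZ F ζ) := by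
            rw [Subgroup.coe_mul, Subgroup.coe_inv, mul_inv_cancel_left]
          rw [h3, hgh] at h2
          exact left_eq_add.mp h2
        have h4 := hfixz _ h1
        have h5 := congrArg (fun x => h • x) h4
        simp only [← mul_smul, mul_inv_cancel_left] at h5
        exact h5
      let χ : U → ZMod 7 := fun g => BR7.kum F ζ b (g : BR7.HZ F ζ)
      have hχ : ∀ g h : U, χ (g * h) = χ g + χ h := fun g h => hkadd b hb _ _
      have hχloc : IsLocallyConstant χ := (hkloc b hb).comp_continuous continuous_subtype_val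
      letI : MulAction U (ULift.{u} (ZMod 7)) := trans χ hχ
      have hsm : ∀ (g : U) (y : ULift.{u} (ZMod 7)), g • y = ⟨y.down + χ g⟩ := fun _ _ => rfl
      have key := hND U Ωˣ hDU 7 χ hχ hχloc (ULift.{u} (ZMod 7)) (by
        intro y
        have h1 : {g : U | g • y = y} = {g : U | χ g = 0} := by
          ext g
          simp only [Set.mem_setOf_eq, hsm]
          constructor
          · intro h
            have := congrArg ULift.down h
            simpa using this
          · intro h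
            rw [h, add_zero]
        rw [h1]
        exact hχloc.isOpen_fiber 0)
        (fun y => (σ ^ y.down.val) • z) (fun y => y.down) (by
          intro g y
          change (σ ^ (y.down + χ g).val) • z = g • ((σ ^ y.down.val) • z)
          rw [← mul_smul]
          apply hsame
          rw [Subgroup.coe_pow, hpow, hσ, Subgroup.coe_mul, hkadd b hb, Subgroup.coe_pow, hpow, hσ,
            ZMod.natCast_zmod_val, ZMod.natCast_zmod_val, mul_one, mul_one, add_comm]) (by
          intro g y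
          rw [hsm]
          simp)
      have hprod : (∏ y : ULift.{u} (ZMod 7), (σ ^ y.down.val) • z) = C := by
        rw [hzC]
        have h1 : (∏ y : ULift.{u} (ZMod 7), (σ ^ y.down.val) • z) =
            ∏ i : ZMod 7, (σ ^ i.val) • z :=
          Fintype.prod_equiv Equiv.ulift _ _ (fun _ => rfl)
        rw [h1]
        have h2 : (∏ i : ZMod 7, (σ ^ i.val) • z) = ∏ i : Fin 7, (σ ^ (i : ℕ)) • z := rfl
        rw [h2, Fin.prod_univ_eq_prod_range (fun i : ℕ => (σ ^ i) • z) 7]
        rfl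
      rw [hprod] at key
      exact key
  -- descent
  haveI : Fact (Nat.Prime 7) := ⟨by norm_num⟩
  obtain ⟨β, hβ, hβ2⟩ := hKer (BR7.HZ F ζ) Ωˣ hDH 7 (BR7.kum F ζ f) (hkadd f hf) (hkloc f hf) U hU
    hH1 (BR7.cup 7 C (BR7.kum F ζ b)) (hZ C b hC hb) hres
  have hβL : BR7.InL F ζ β := fun g hg => hβ ⟨g, hg⟩
  have hβi : BR7.InL F ζ β⁻¹ := fun g hg => by rw [smul_inv', hβL g hg]
  have h1L : BR7.InL F ζ (1 : Ωˣ) := fun g _ => smul_one g
  have hfβ : BR7.InL F ζ (f * β) := fun g hg => by rw [smul_mul', hf g hg, hβL g hg]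
  refine ⟨β⁻¹, hβi, ?_⟩
  have e1 : BR7.symb F ζ C b = BR7.symb F ζ β f :=
    cls_eq (hZ C b hC hb) (hZ β f hβL hf) hβ2
  have e2 : BR7.symb F ζ f (1 : Ωˣ) = 1 := by
    have := hadd2 f 1 1 hf h1L h1L
    rw [mul_one] at this
    exact q_one (Q := BR7.H2 (BR7.HZ F ζ) Ωˣ) _ this
  have e3 : BR7.symb F ζ f β * BR7.symb F ζ f β⁻¹ = 1 := by
    rw [← hadd2 f β β⁻¹ hf hβL hβi, mul_inv_cancel, e2]
  have e4 : BR7.symb F ζ f β * BR7.symb F ζ β f = 1 := by
    have h1 := hself (f * β) hfβ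
    rw [hadd1 f β (f * β) hf hβL hfβ, hadd2 f f β hf hf hβL, hadd2 β f β hβL hf hβL] at h1
    exact q_self (Q := BR7.H2 (BR7.HZ F ζ) Ωˣ) _ _ _ _ (hself f hf) (hself β hβL) h1
  rw [e1]
  exact q_cancel (Q := BR7.H2 (BR7.HZ F ζ) Ωˣ) _ _ _ e4 e3

end BR7.H81
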